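import Mathlib
import Pool.Agent.H14.SolAct2

namespace Pool.Agent.Results.MP_7909d8_al.CountableFaithful

universe u

/-- Every countable group `G` acts faithfully by automorphisms on a finitely generated soluble group
`S` with trivial fourth derived subgroup.  (`S` is a subgroup of `(Sym₃)^H wr (K wr ℤ)`, `K` cyclic of
order 6, `H` a group containing `G` in a 3-generated subgroup; `G` acts by right translation on the
exponent `H`.) -/
theorem result (G : Type u) [Group G] [Countable G] :
    ∃ (S : Type u) (_ : Group S), Group.FG S ∧ IsSolvable S ∧ derivedSeries S 4 = ⊥ ∧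
      ∃ φ : G →* MulAut S, Function.Injective φ := by
  obtain ⟨S, iS, h1, h2, h3⟩ := H14.SolAct.main G
  exact ⟨S, iS, h1, ⟨⟨4, h2⟩⟩, h2, h3⟩

end Pool.Agent.Results.MP_7909d8_al.CountableFaithful
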